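import Mathlib
import Pool.Agent.Lib.MP_473540_gtM.BigCof

section

/-!
Chains of length `(#Λ)⁺`.
-/

namespace Pool.Agent.Lib.MP_473540_gtM

open Cardinal Ordinal Filter Set

/-- **Chains of length `(#Λ)⁺`.** If every family indexed by `Λ` has an upper bound with respect to
`R` then there is a family indexed by `(#Λ)⁺` which is increasing with respect to `R`. -/
theorem exists_chain {Λ : Type} (hΛ : ℵ₀ ≤ #Λ) {D : Type*} (d₀ : D) (R : D → D → Prop)
    (hR : ∀ u : Λ → D, ∃ v, ∀ k, R (u k) v) :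
    ∃ (W : Type) (_ : LinearOrder W) (G : W → D), Nonempty W ∧ #W ≤ Order.succ #Λ ∧
      (∀ (ι : Type), #ι ≤ #Λ → ∀ a : ι → W, ∃ j, ∀ k, a k < j) ∧
      ∀ i j, i < j → R (G i) (G j) := by
  classical
  have hreg : (Order.succ #Λ).IsRegular := isRegular_succ hΛ
  have hbdd : ∀ (ι : Type), #ι ≤ #Λ → ∀ a : ι → (Order.succ #Λ : Cardinal.{0}).ord.ToType,
      ∃ j, ∀ k, a k < j := by
    intro ι hι a
    have h1 : ⨆ k, ((a k : Ordinal.{0}) + 1) < (Order.succ #Λ : Cardinal.{0}).ord := by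
      refine Ordinal.iSup_add_one_lt_of_lt_cof ?_ fun k => (a k).toOrd.2
      rw [hreg.cof_ord]
      exact hι.trans_lt (Order.lt_succ _)
    refine ⟨Ordinal.ToType.mk ⟨_, h1⟩, fun k => ?_⟩
    rw [← OrderIso.symm_apply_lt]
    show ((Ordinal.ToType.mk.symm (a k)) : Ordinal.{0}) < _
    exact Ordinal.lt_iSup_add_one (fun k => ((a k : Ordinal.{0}))) k
  have hex : ∀ (j : (Order.succ #Λ : Cardinal.{0}).ord.ToType)
      (rec : ∀ i, i < j → D), ∃ v, ∀ i (hi : i < j), R (rec i hi) v := by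
    intro j rec
    have hc : #{i // i < j} ≤ #Λ := by
      have h1 : #(Iio j) < Order.succ #Λ := by
        have h3 := mk_Iio_lt j (by rw [mk_ord_toType, Ordinal.type_toType])
        rwa [mk_ord_toType] at h3
      exact Order.lt_succ_iff.1 h1
    rcases isEmpty_or_nonempty {i // i < j} with he | he
    · exact ⟨d₀, fun i hi => (he.false ⟨i, hi⟩).elim⟩
    · obtain ⟨e⟩ : Nonempty ({i // i < j} ↪ Λ) := hc
      have hs : Function.Surjective (Function.invFun e) := Function.invFun_surjective e.injective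
      obtain ⟨v, hv⟩ := hR fun k => rec (Function.invFun e k).1 (Function.invFun e k).2
      refine ⟨v, fun i hi => ?_⟩
      obtain ⟨k, hk⟩ := hs ⟨i, hi⟩
      have h1 := hv k
      rw [hk] at h1
      exact h1
  choose F hF using hex
  refine ⟨(Order.succ #Λ : Cardinal.{0}).ord.ToType, inferInstance,
    WellFounded.fix (r := (· < ·)) wellFounded_lt F, ?_, ?_, hbdd, ?_⟩
  · rw [Ordinal.nonempty_toType_iff, Ne, ord_eq_zero]
    exact (bot_lt_of_lt (Order.lt_succ #Λ)).ne'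
  · rw [mk_ord_toType]
  · intro i j hij
    rw [WellFounded.fix_eq _ _ j]
    exact hF j (fun i _ => WellFounded.fix (r := (· < ·)) wellFounded_lt F i) i hij

end Pool.Agent.Lib.MP_473540_gtM
end

section

/-!
Subsequences.
-/

namespace Pool.Agent.Lib.MP_473540_gtM

open Cardinal Ordinal Filter Set

/-- a strictly increasing subsequence of a sequence of cardinals below `K` which tends to `K` -/
theorem exists_subseq {K μ : Cardinal.{0}} (hμ : μ < K) {w : ℕ → Cardinal.{0}}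
    (h1 : ∀ᶠ n in atTop, w n < K) (h2 : ∀ θ < K, ∀ᶠ n in atTop, θ < w n) :
    ∃ s : ℕ → ℕ, StrictMono s ∧ StrictMono (fun k => w (s k)) ∧ (∀ k, μ < w (s k)) ∧
      ∀ k, w (s k) < K := by
  -- `h1`: `w n < K` for `n ≥ N₀`. For `n ≥ N₀` choose `next n > n` with `w n < w (next n)` (`h2` for
  -- `θ = w n`); choose `s 0 ≥ N₀` with `μ < w (s 0)` (`h2` for `θ = μ`), `s (k + 1) = next (s k)`;
  -- `strictMono_nat_of_lt_succ`.
  obtain ⟨N₀, hN₀⟩ := eventually_atTop.1 h1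
  have hnext : ∀ n : {n : ℕ // N₀ ≤ n}, ∃ m : {n : ℕ // N₀ ≤ n}, n.1 < m.1 ∧ w n.1 < w m.1 := by
    intro n
    obtain ⟨M, hM⟩ := eventually_atTop.1 (h2 (w n.1) (hN₀ n.1 n.2))
    refine ⟨⟨max (n.1 + 1) M, ?_⟩, ?_, ?_⟩
    · exact le_trans n.2 (le_trans (Nat.le_succ _) (le_max_left _ _))
    · exact lt_of_lt_of_le (Nat.lt_succ_self _) (le_max_left _ _)
    · exact hM _ (le_max_right _ _)
  choose next hn1 hn2 using hnext
  obtain ⟨M, hM⟩ := eventually_atTop.1 (h2 μ hμ)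
  set s0 : {n : ℕ // N₀ ≤ n} := ⟨max N₀ M, le_max_left _ _⟩ with hs0
  set t : ℕ → {n : ℕ // N₀ ≤ n} := fun k => next^[k] s0 with ht
  have hsucc : ∀ k, t (k + 1) = next (t k) := by
    intro k
    simp only [ht, Function.iterate_succ_apply']
  have hw0 : μ < w (t 0).1 := by
    have : (t 0).1 = max N₀ M := rfl
    rw [this]
    exact hM _ (le_max_right _ _)
  have hmono : StrictMono (fun k => w (t k).1) := by
    apply strictMono_nat_of_lt_succ
    intro k
    simp only [hsucc]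
    exact hn2 _
  refine ⟨fun k => (t k).1, ?_, hmono, ?_, ?_⟩
  · apply strictMono_nat_of_lt_succ
    intro k
    simp only [hsucc]
    exact hn1 _
  · intro k
    exact lt_of_lt_of_le hw0 (hmono.monotone (Nat.zero_le k))
  · intro k
    exact hN₀ _ (t k).2

end Pool.Agent.Lib.MP_473540_gtM
end

section

/-!
Exact upper bounds.
-/

namespace Pool.Agent.Lib.MP_473540_gtM

open Cardinal Ordinal Filter Set

theorem le_of_imp {u v : ℕ → Ordinal.{0}} (hu : ∀ᶠ m in atTop, 0 < u m)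
    (h : ∀ h : ℕ → Ordinal.{0}, (∀ᶠ m in atTop, h m < u m) → ∀ᶠ m in atTop, h m < v m) :
    ∀ᶠ m in atTop, u m ≤ v m := by
  -- apply `h` to the function which is `v m` if `v m < u m` and `0` otherwise
  classical
  have h1 := h (fun m => if v m < u m then v m else 0) (by
    filter_upwards [hu] with m hm
    by_cases hc : v m < u m
    · simp [hc]
    · simpa [hc] using hm)
  filter_upwards [h1] with m hm
  by_contra hc
  rw [not_le] at hc
  rw [if_pos hc] at hm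
  exact lt_irrefl _ hm

variable {Λ : Type} {κ : ℕ → Cardinal.{0}} {lam : Cardinal.{0}} {f : Ordinal.{0} → ℕ → Ordinal.{0}}
  {δ δ' : Ordinal.{0}} {v w : ℕ → Ordinal.{0}}

theorem Eub.congr (hv : Eub f δ v) (h : ∀ᶠ m in atTop, v m = w m) : Eub f δ w := by
  intro g
  rw [← hv g]
  constructor
  · intro hg
    filter_upwards [hg, h] with m h1 h2
    rw [h2]
    exact h1
  · intro hg
    filter_upwards [hg, h] with m h1 h2
    rw [← h2]
    exact h1

theorem Eub.lt (S : Scale Λ κ lam f) (hδ : δ ≤ lam.ord) (hB : Big Λ δ) (hv : Eub f δ v)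
    {β : Ordinal.{0}} (hβ : β < δ) : ∀ᶠ m in atTop, f β m < v m := by
  -- `β + 1 < δ` (`Big.add_one_lt`), `f β` is below `f (β + 1)` (`S.inc`)
  have h1 : β + 1 < δ := hB.add_one_lt S.inf hβ
  exact (hv (f β)).mpr ⟨β + 1, h1, S.inc β (β + 1) (lt_add_one β) (lt_of_lt_of_le h1 hδ)⟩

theorem Eub.le (S : Scale Λ κ lam f) (hδ : δ ≤ lam.ord) (hB : Big Λ δ) (h : δ' ≤ δ)
    (h0 : ∀ᶠ m in atTop, 0 < v m) (hv : Eub f δ' v) (hw : Eub f δ w) :
    ∀ᶠ m in atTop, v m ≤ w m := by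
  -- `le_of_imp`: `h` below `v` is below `f β` with `β < δ' ≤ δ`, and `f β` is below `w` (`Eub.lt`)
  refine le_of_imp h0 fun g hg => ?_
  obtain ⟨β, hβ, hgβ⟩ := (hv g).mp hg
  filter_upwards [hgβ, Eub.lt S hδ hB hw (lt_of_lt_of_le hβ h)] with m h1 h2
  exact lt_trans h1 h2

theorem Scale.big_lam (S : Scale Λ κ lam f) : Big Λ lam.ord := by
  -- `big_ord`
  exact Pool.Agent.Lib.MP_473540_gtM.big_ord S.inf S.lreg (lt_trans S.unc (S.lt_lam 0))

theorem Scale.big_ord (S : Scale Λ κ lam f) (m : ℕ) : Big Λ (κ m).ord := by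
  exact Pool.Agent.Lib.MP_473540_gtM.big_ord S.inf (S.reg m)
    (lt_of_lt_of_le S.unc (S.mono.monotone (Nat.zero_le m)))

/-- the scale is cofinal -/
theorem Scale.eub_top (S : Scale Λ κ lam f) : Eub f lam.ord (fun m => (κ m).ord) := by
  -- `→`: change `h` to `0` at the finitely many places where it is not below, `S.cof`;
  -- `←`: `S.mem`
  classical
  intro g
  constructor
  · intro hg
    obtain ⟨α, hα, h⟩ := S.cof (fun m => if g m < (κ m).ord then g m else 0) (by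
      intro m
      by_cases hc : g m < (κ m).ord
      · simp [hc]
      · simpa only [hc, if_false] using (S.big_ord m).1)
    refine ⟨α, hα, ?_⟩
    filter_upwards [h, hg] with m h1 h2
    have h2' : g m < (κ m).ord := h2
    rw [if_pos h2'] at h1
    exact h1
  · rintro ⟨β, hβ, h⟩
    filter_upwards [h] with m hm
    exact lt_trans hm (S.mem β hβ m)

theorem EubScale.exists_eub (S : EubScale Λ κ lam f) (hδ : δ ≤ lam.ord) (hB : Big Λ δ) :
    ∃ v : ℕ → Ordinal.{0}, IsPt Λ κ v ∧ Eub f δ v := by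
  -- `δ = lam.ord`: `S.eub_top`. `δ < lam.ord`: `S.eub` (`big_iff_cof`) gives `v`; `v ≤ f δ < κ`
  -- for almost all `m` by `le_of_imp` (a function below `v` is below `f β` with `β < δ`, so below
  -- `f δ`; `0 < v m` because its cofinality is not `0`). Change `v m` to `(κ m).ord` at the finitely
  -- many bad places (`Eub.congr`).
  classical
  rcases hδ.eq_or_lt with rfl | hlt
  · exact ⟨fun m => (κ m).ord, fun m => ⟨le_rfl, S.toScale.big_ord m⟩, S.toScale.eub_top⟩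
  · obtain ⟨v, hv1, hv2⟩ := S.eub δ hlt ((big_iff_cof S.inf).mp hB)
    have hb : ∀ᶠ m in atTop, Big Λ (v m) := hv1.mono fun m hm => (big_iff_cof S.inf).mpr hm
    have hle : ∀ᶠ m in atTop, v m ≤ (κ m).ord :=
      Eub.le S.toScale le_rfl S.toScale.big_lam hlt.le (hb.mono fun m hm => hm.1) hv2
        S.toScale.eub_top
    refine ⟨fun m => if v m ≤ (κ m).ord ∧ Big Λ (v m) then v m else (κ m).ord, fun m => ?_,
      hv2.congr ?_⟩
    · by_cases hc : v m ≤ (κ m).ord ∧ Big Λ (v m)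
      · simp [hc]
      · simp only [hc, if_false]
        exact ⟨le_rfl, S.toScale.big_ord m⟩
    · filter_upwards [hb, hle] with m h1 h2
      rw [if_pos ⟨h2, h1⟩]

end Pool.Agent.Lib.MP_473540_gtM
end

section

/-!
Positive points with respect to a `σ`-ideal.
-/

namespace Pool.Agent.Lib.MP_473540_gtM

open Cardinal Ordinal Filter Set

theorem SIdeal.small {Λ : Type} {I : Set (ℕ → Ordinal.{0}) → Prop} (hI : SIdeal Λ I)
    {ι : Type} (hι : #ι ≤ #Λ) (S : ι → Set (ℕ → Ordinal.{0})) (hS : ∀ n, I (S n)) :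
    I (⋃ n, S n) := by
  rcases isEmpty_or_nonempty ι with he | hne
  · rw [iUnion_of_empty]
    exact hI.empty
  · obtain ⟨e⟩ : Nonempty (ι ↪ Λ) := hι
    have hs : Function.Surjective (Function.invFun e) := Function.invFun_surjective e.injective
    refine hI.mono _ _ ?_ (hI.union (fun k => S (Function.invFun e k)) fun k => hS _)
    intro x hx
    obtain ⟨n, hn⟩ := mem_iUnion.1 hx
    obtain ⟨k, rfl⟩ := hs n
    exact mem_iUnion.2 ⟨k, hn⟩

private theorem sideal_cons {Λ : Type} (hΛ : ℵ₀ ≤ #Λ) {I : Set (ℕ → Ordinal.{0}) → Prop}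
    (hI : SIdeal Λ I) {E : Set (ℕ → Ordinal.{0})} {S : ℕ → Set (ℕ → Ordinal.{0})} (hE : I E)
    (hS : ∀ n, I (S n)) : I (E ∪ ⋃ n, S n) := by
  have h1 := hI.small (ι := ℕ) (by rwa [mk_nat]) (fun k => Nat.casesOn k E S) (by
    intro k
    cases k with
    | zero => exact hE
    | succ k => exact hS k)
  refine hI.mono _ _ ?_ h1
  intro x hx
  rcases hx with hx | hx
  · exact mem_iUnion.2 ⟨0, hx⟩
  · obtain ⟨n, hn⟩ := mem_iUnion.1 hx
    exact mem_iUnion.2 ⟨n + 1, hn⟩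

/-- the tail is positive -/
theorem exists_tail {Λ : Type} (hΛ : ℵ₀ ≤ #Λ) {I : Set (ℕ → Ordinal.{0}) → Prop} (hI : SIdeal Λ I)
    (A : ℕ → Set (ℕ → Ordinal.{0})) (hA : Monotone A) (hpos : ¬ I (⋃ n, A n))
    (w : ℕ → Ordinal.{0}) (N₀ : ℕ)
    (H : ∀ h : ℕ → Ordinal.{0}, (∀ m ≥ N₀, h m < w m) →
      I {x ∈ ⋃ n, A n | ¬ ∀ᶠ m in atTop, h m < x m}) :
    ∃ n₁ ≥ N₀, ∀ h : ℕ → Ordinal.{0}, (∀ m ≥ n₁, h m < w m) →
      ¬ I {x ∈ A n₁ | ∀ m ≥ n₁, h m < x m} := by
  by_contra hcon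
  push Not at hcon
  choose! h hh1 hh2 using hcon
  obtain ⟨h', hh'⟩ : ∃ h' : ℕ → Ordinal.{0},
      h' = fun m => (Finset.Icc N₀ m).sup (fun n => h n m) := ⟨_, rfl⟩
  have h1 : ∀ m ≥ N₀, h' m < w m := by
    intro m hm
    rw [hh']
    have h2 : h m m < w m := hh1 m hm m le_rfl
    refine (Finset.sup_lt_iff (lt_of_le_of_lt bot_le h2)).2 ?_
    intro n hn
    rw [Finset.mem_Icc] at hn
    exact hh1 n hn.1 m hn.2
  have h2 := H h' h1
  apply hpos
  refine hI.mono _ _ ?_ (sideal_cons hΛ hI h2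
    (S := fun n => if N₀ ≤ n then {x ∈ A n | ∀ m ≥ n, h n m < x m} else ∅) ?_)
  · intro x hx
    by_cases hx' : ∀ᶠ m in atTop, h' m < x m
    · right
      obtain ⟨a, ha⟩ := mem_iUnion.1 hx
      obtain ⟨b, hb⟩ := eventually_atTop.1 hx'
      refine mem_iUnion.2 ⟨max a (max b N₀), ?_⟩
      have h3 : N₀ ≤ max a (max b N₀) := le_max_of_le_right (le_max_right _ _)
      change x ∈ (if N₀ ≤ max a (max b N₀) then _ else ∅ : Set (ℕ → Ordinal.{0}))
      rw [if_pos h3]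
      refine ⟨hA (le_max_left _ _) ha, ?_⟩
      intro m hm
      have h4 : h (max a (max b N₀)) m ≤ h' m := by
        rw [hh']
        exact Finset.le_sup (f := fun n => h n m) (Finset.mem_Icc.2 ⟨h3, hm⟩)
      refine lt_of_le_of_lt h4 (hb m ?_)
      exact le_trans (le_max_of_le_right (le_max_left _ _)) hm
    · left
      exact ⟨hx, hx'⟩
  · intro n
    split_ifs with h3
    · exact hh2 n h3
    · exact hI.empty

/-- **A positive point.** -/
theorem exists_pos {Λ : Type} (hΛ : ℵ₀ ≤ #Λ) {κ : ℕ → Cardinal.{0}} {I : Set (ℕ → Ordinal.{0}) → Prop} (hI : SIdeal Λ I)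
    (A : ℕ → Set (ℕ → Ordinal.{0})) (hA : Monotone A) (hpos : ¬ I (⋃ n, A n))
    (hpt : ∀ n, ∀ x ∈ A n, IsPt Λ κ x) (w : ℕ → Ordinal.{0}) (N₀ : ℕ)
    (hw : ∀ m ≥ N₀, Big Λ (w m))
    (H : ∀ h : ℕ → Ordinal.{0}, (∀ m ≥ N₀, h m < w m) →
      I {x ∈ ⋃ n, A n | ¬ ∀ᶠ m in atTop, h m < x m}) :
    ∃ n₁ ≥ N₀, ∃ p : ℕ → Ordinal.{0}, (∀ m < n₁, p m ≤ (κ m).ord ∧ Big Λ (p m)) ∧
      ∀ h : ℕ → Ordinal.{0}, (∀ m < n₁, h m < p m) → (∀ m ≥ n₁, h m < w m) →
        ¬ I {x ∈ A n₁ | (∀ m < n₁, h m < x m ∧ x m ≤ p m) ∧ ∀ m ≥ n₁, h m < x m} := by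
  obtain ⟨n₁, hn₁, ht⟩ := exists_tail hΛ hI A hA hpos w N₀ H
  refine ⟨n₁, hn₁, ?_⟩
  obtain ⟨Rset, hRset⟩ : ∃ Rset : (Fin n₁ → Ordinal.{0}) → (ℕ → Ordinal.{0}) →
      Set (ℕ → Ordinal.{0}), Rset = fun p h =>
        {x ∈ A n₁ | (∀ m : Fin n₁, x m ≤ p m) ∧ ∀ m ≥ n₁, h m < x m} := ⟨_, rfl⟩
  have hmem : ∀ p h x, x ∈ Rset p h ↔
      x ∈ A n₁ ∧ (∀ m : Fin n₁, x m ≤ p m) ∧ ∀ m ≥ n₁, h m < x m := by
    intro p h x
    rw [hRset]
    exact Iff.rfl
  obtain ⟨R, hR⟩ : ∃ R : (Fin n₁ → Ordinal.{0}) → Prop, R = fun p =>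
      ∀ h : ℕ → Ordinal.{0}, (∀ m ≥ n₁, h m < w m) → ¬ I (Rset p h) := ⟨_, rfl⟩
  have hR' : ∀ p, R p ↔ ∀ h : ℕ → Ordinal.{0}, (∀ m ≥ n₁, h m < w m) → ¬ I (Rset p h) := by
    intro p
    rw [hR]
  have hκ : R (fun m : Fin n₁ => (κ m).ord) := by
    rw [hR']
    intro h hh hi
    refine ht h hh (hI.mono _ _ ?_ hi)
    rintro x ⟨hx1, hx2⟩
    rw [hmem]
    exact ⟨hx1, fun m => (hpt n₁ x hx1 m).1, hx2⟩
  obtain ⟨p, ⟨hp1, hp2⟩, hp3⟩ := (wellFounded_lt (α := Fin n₁ → Ordinal.{0})).has_min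
    {p | R p ∧ ∀ m : Fin n₁, p m ≤ (κ m).ord} ⟨_, hκ, fun m => le_rfl⟩
  have hwpos : ∀ m ≥ n₁, 0 < w m := fun m hm => (hw m (hn₁.trans hm)).1
  -- minimality
  have hstar : ∀ (m₀ : Fin n₁) (a : Ordinal.{0}), a < p m₀ →
      ∃ h : ℕ → Ordinal.{0}, (∀ m ≥ n₁, h m < w m) ∧
        I {x | x ∈ A n₁ ∧ x m₀ ≤ a ∧ (∀ m : Fin n₁, x m ≤ p m) ∧ ∀ m ≥ n₁, h m < x m} := by
    intro m₀ a ha
    have h1 : Function.update p m₀ a < p := by
      rw [Pi.lt_def]
      refine ⟨?_, m₀, ?_⟩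
      · intro m
        by_cases hm : m = m₀
        · subst hm
          rw [Function.update_self]
          exact ha.le
        · rw [Function.update_of_ne hm]
      · rw [Function.update_self]
        exact ha
    have h2 : ¬ R (Function.update p m₀ a) := by
      intro h2
      exact hp3 _ ⟨h2, fun m => (h1.le m).trans (hp2 m)⟩ h1
    rw [hR'] at h2
    push Not at h2
    obtain ⟨h, hh1, hh2⟩ := h2
    refine ⟨h, hh1, hI.mono _ _ ?_ hh2⟩
    rintro x ⟨hx1, hx2, hx3, hx4⟩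
    rw [hmem]
    refine ⟨hx1, fun m => ?_, hx4⟩
    by_cases hm : m = m₀
    · subst hm
      rw [Function.update_self]
      exact hx2
    · rw [Function.update_of_ne hm]
      exact hx3 m
  have hbig : ∀ m₀ : Fin n₁, Big Λ (p m₀) := by
    intro m₀
    by_contra hnb
    rcases eq_or_ne (p m₀) 0 with h0 | h0
    · refine (hR' p).1 hp1 (fun _ => 0) hwpos ?_
      refine hI.mono _ _ ?_ hI.empty
      intro x hx
      rw [hmem] at hx
      have h1 := hx.2.1 m₀
      rw [h0] at h1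
      exact absurd (hpt n₁ x hx.1 m₀).2.1 (not_lt.2 h1)
    · obtain ⟨a, ha1, ha2⟩ := exists_of_not_big hnb (pos_iff_ne_zero.2 h0)
      choose h hh1 hh2 using fun k => hstar m₀ (a k) (ha1 k)
      have h3 : ∀ m, ∃ b, n₁ ≤ m → b < w m ∧ ∀ k, h k m < b := by
        intro m
        by_cases hm : n₁ ≤ m
        · obtain ⟨b, hb1, hb2⟩ := (hw m (hn₁.trans hm)).2 (fun k => h k m)
            (fun k => hh1 k m hm)
          exact ⟨b, fun _ => ⟨hb1, hb2⟩⟩
        · exact ⟨0, fun h => absurd h hm⟩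
      choose h' hh' using h3
      refine (hR' p).1 hp1 h' (fun m hm => (hh' m hm).1) ?_
      refine hI.mono _ _ ?_ (hI.union _ hh2)
      intro x hx
      rw [hmem] at hx
      have h4 : x m₀ < p m₀ := by
        refine lt_of_le_of_ne (hx.2.1 m₀) ?_
        intro h4
        apply hnb
        rw [← h4]
        exact (hpt n₁ x hx.1 m₀).2
      obtain ⟨k, hk⟩ := ha2 _ h4
      refine mem_iUnion.2 ⟨k, hx.1, hk, hx.2.1, ?_⟩
      intro m hm
      exact ((hh' m hm).2 k).trans (hx.2.2 m hm)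
  refine ⟨fun m => if hm : m < n₁ then p ⟨m, hm⟩ else 0, ?_, ?_⟩
  · intro m hm
    simp only [dif_pos hm]
    exact ⟨hp2 ⟨m, hm⟩, hbig ⟨m, hm⟩⟩
  · intro h hh1 hh2 hi
    choose g hg1 hg2 using fun m₀ : Fin n₁ => hstar m₀ (h m₀) (by
      have := hh1 m₀ m₀.2
      simp only [dif_pos m₀.2] at this
      exact this)
    obtain ⟨h', hh'⟩ : ∃ h' : ℕ → Ordinal.{0},
        h' = fun m => max (h m) (Finset.univ.sup fun m₀ => g m₀ m) := ⟨_, rfl⟩
    refine (hR' p).1 hp1 h' ?_ ?_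
    · intro m hm
      rw [hh']
      refine max_lt (hh2 m hm) ?_
      refine (Finset.sup_lt_iff (lt_of_le_of_lt bot_le (hh2 m hm))).2 ?_
      intro m₀ _
      exact hg1 m₀ m hm
    · refine hI.mono _ _ ?_ (sideal_cons hΛ hI hi
        (S := fun k => if hk : k < n₁ then {x | x ∈ A n₁ ∧ x k ≤ h k ∧
          (∀ m : Fin n₁, x m ≤ p m) ∧ ∀ m ≥ n₁, g ⟨k, hk⟩ m < x m} else ∅) ?_)
      · intro x hx
        rw [hmem] at hx
        by_cases hx' : ∀ m < n₁, h m < x m
        · left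
          refine ⟨hx.1, ?_, ?_⟩
          · intro m hm
            simp only [dif_pos hm]
            exact ⟨hx' m hm, hx.2.1 ⟨m, hm⟩⟩
          · intro m hm
            refine lt_of_le_of_lt ?_ (hx.2.2 m hm)
            rw [hh']
            exact le_max_left _ _
        · right
          push Not at hx'
          obtain ⟨m₀, hm₀, hx'⟩ := hx'
          refine mem_iUnion.2 ⟨m₀, ?_⟩
          simp only [dif_pos hm₀]
          refine ⟨hx.1, hx', hx.2.1, ?_⟩
          intro m hm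
          refine lt_of_le_of_lt ?_ (hx.2.2 m hm)
          rw [hh']
          exact le_max_of_le_right
            (Finset.le_sup (f := fun m₀ => g m₀ m) (Finset.mem_univ (⟨m₀, hm₀⟩ : Fin n₁)))
      · intro k
        by_cases hk : k < n₁
        · simp only [dif_pos hk]
          exact hg2 ⟨k, hk⟩
        · simp only [dif_neg hk]
          exact hI.empty

end Pool.Agent.Lib.MP_473540_gtM
end

section

/-!
Sequences which are constructed by transfinite recursion.
-/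

namespace Pool.Agent.Lib.MP_473540_gtM

open Cardinal Ordinal Filter Set

/-- **Transfinite recursion**: if for every `α < lam` and every family indexed by the ordinals
there is an element `v` with `Q α v` and `R (u β) v` for all `β < α` then there is a sequence with
these properties. -/
theorem exists_rec {D : Type 1} (d₀ : D) (lam : Ordinal.{0}) (R : D → D → Prop)
    (Q : Ordinal.{0} → D → Prop)
    (hR : ∀ α < lam, ∀ u : Ordinal.{0} → D, (∀ β < α, Q β (u β)) →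
      ∃ v, Q α v ∧ ∀ β < α, R (u β) v) :
    ∃ u : Ordinal.{0} → D, ∀ α < lam, Q α (u α) ∧ ∀ β < α, R (u β) (u α) := by
  classical
  let F : (α : Ordinal.{0}) → ((β : Ordinal.{0}) → β < α → D) → D := fun α rec =>
    if h : ∃ v, Q α v ∧ ∀ β (hβ : β < α), R (rec β hβ) v then h.choose else d₀
  let u : Ordinal.{0} → D := WellFounded.fix Ordinal.lt_wf F
  have hu : ∀ α, u α = F α (fun β _ => u β) := fun α => WellFounded.fix_eq _ _ α
  refine ⟨u, fun α => ?_⟩
  induction α using WellFoundedLT.induction with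
  | ind α ih =>
    intro hα
    obtain ⟨v, hv⟩ := hR α hα u (fun β hβ => (ih β hβ (hβ.trans hα)).1)
    have h : ∃ v, Q α v ∧ ∀ β (hβ : β < α), R (u β) v := ⟨v, hv⟩
    rw [hu]
    simp only [F]
    rw [dif_pos h]
    exact h.choose_spec

end Pool.Agent.Lib.MP_473540_gtM
end
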